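import Pool.Agent.Helper74_RL.Stmts

/-!
# The Hopf map is smooth and Lipschitz away from the origin (helper49, module HPL)
-/

noncomputable section

open scoped ContDiff Topology RealInnerProductSpace
set_option maxSynthPendingDepth 3
open Set Metric

namespace Pool.Agent.RLim.H49

open Pool.Agent.RLim Pool.Agent.RF

theorem contDiff_coord {n : ℕ} (i : Fin n) : ContDiff ℝ ∞ (fun x : E (Fin n) => x i) :=
  ((EuclideanSpace.proj i : E (Fin n) →L[ℝ] ℝ)).contDiff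

theorem contDiff_hq : ContDiff ℝ ∞ hq := by
  have h0 := contDiff_coord (n := 4) 0
  have h1 := contDiff_coord (n := 4) 1
  have h2 := contDiff_coord (n := 4) 2
  have h3 := contDiff_coord (n := 4) 3
  rw [contDiff_euclidean]
  intro i
  fin_cases i
  · exact contDiff_const.mul ((h0.mul h2).add (h1.mul h3))
  · exact contDiff_const.mul ((h1.mul h2).sub (h0.mul h3))
  · exact (((h0.pow 2).add (h1.pow 2)).sub (h2.pow 2)).sub (h3.pow 2)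

theorem contDiffOn_hopf : ContDiffOn ℝ ∞ hopf {X : E4 | X ≠ 0} := by
  have h : hopf = fun X : E4 => (‖X‖ ^ 2)⁻¹ • hq X := funext hopf_eq
  rw [h]
  refine ContDiffOn.smul (f := fun X : E4 => (‖X‖ ^ 2)⁻¹) ?_ contDiff_hq.contDiffOn
  refine ContDiffOn.inv (contDiff_norm_sq ℝ).contDiffOn ?_
  intro x hx
  have hx' : x ≠ 0 := hx
  positivity

theorem norm_hq_sub (X Y : E4) : ‖hq X - hq Y‖ ≤ ‖X - Y‖ * ‖X + Y‖ := by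
  have h : ‖hq X - hq Y‖ ^ 2 ≤ (‖X - Y‖ * ‖X + Y‖) ^ 2 := by
    rw [mul_pow, norm_sq3, norm_sq4, norm_sq4]
    simp only [PiLp.sub_apply, PiLp.add_apply, hq_0, hq_1, hq_2]
    have := sq_nonneg ((X 1 - Y 1) * (X 0 + Y 0) - (X 0 - Y 0) * (X 1 + Y 1)
      + ((X 3 - Y 3) * (X 2 + Y 2) - (X 2 - Y 2) * (X 3 + Y 3)))
    nlinarith [this]
  exact (pow_le_pow_iff_left₀ (norm_nonneg _) (by positivity) two_ne_zero).1 h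

theorem hopf_lip_aux {X Y : E4} (hX : X ≠ 0) (hY : Y ≠ 0) (hXY : ‖Y‖ ≤ ‖X‖) :
    ‖hopf X - hopf Y‖ ≤ 4 * ‖X - Y‖ / ‖X‖ := by
  have hx : 0 < ‖X‖ := norm_pos_iff.2 hX
  have hy : 0 < ‖Y‖ := norm_pos_iff.2 hY
  have e : hopf X - hopf Y = (‖X‖ ^ 2)⁻¹ • (hq X - hq Y) + ((‖X‖ ^ 2)⁻¹ - (‖Y‖ ^ 2)⁻¹) • hq Y := by
    rw [hopf_eq, hopf_eq, smul_sub, sub_smul]
    abel
  have h1 : ‖(‖X‖ ^ 2)⁻¹ • (hq X - hq Y)‖ ≤ (‖X‖ ^ 2)⁻¹ * (‖X - Y‖ * (‖X‖ + ‖Y‖)) := by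
    rw [norm_smul, norm_inv, norm_pow, norm_norm]
    refine mul_le_mul_of_nonneg_left ?_ (by positivity)
    exact (norm_hq_sub X Y).trans (mul_le_mul_of_nonneg_left (norm_add_le _ _) (norm_nonneg _))
  have h2 : ‖((‖X‖ ^ 2)⁻¹ - (‖Y‖ ^ 2)⁻¹) • hq Y‖ ≤ (‖X‖ ^ 2)⁻¹ * (‖X - Y‖ * (‖X‖ + ‖Y‖)) := by
    rw [norm_smul, norm_hq, Real.norm_eq_abs]
    have e1 : |(‖X‖ ^ 2)⁻¹ - (‖Y‖ ^ 2)⁻¹| * ‖Y‖ ^ 2 = (‖X‖ ^ 2)⁻¹ * ((‖X‖ - ‖Y‖) * (‖X‖ + ‖Y‖)) := by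
      have : (‖X‖ ^ 2)⁻¹ - (‖Y‖ ^ 2)⁻¹ ≤ 0 := by
        rw [sub_nonpos]
        exact inv_anti₀ (by positivity) (pow_le_pow_left₀ hy.le hXY 2)
      rw [abs_of_nonpos this]
      field_simp
      ring
    rw [e1]
    refine mul_le_mul_of_nonneg_left ?_ (by positivity)
    refine mul_le_mul_of_nonneg_right ?_ (by positivity)
    exact (norm_sub_norm_le X Y)
  rw [e]
  refine (norm_add_le _ _).trans ((add_le_add h1 h2).trans ?_)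
  have h3 : ‖X - Y‖ * (‖X‖ + ‖Y‖) ≤ ‖X - Y‖ * (2 * ‖X‖) :=
    mul_le_mul_of_nonneg_left (by linarith) (norm_nonneg _)
  have h4 : (‖X‖ ^ 2)⁻¹ * (‖X - Y‖ * (‖X‖ + ‖Y‖)) ≤ (‖X‖ ^ 2)⁻¹ * (‖X - Y‖ * (2 * ‖X‖)) :=
    mul_le_mul_of_nonneg_left h3 (by positivity)
  have h5 : 4 * ‖X - Y‖ / ‖X‖ = (‖X‖ ^ 2)⁻¹ * (‖X - Y‖ * (2 * ‖X‖)) +
      (‖X‖ ^ 2)⁻¹ * (‖X - Y‖ * (2 * ‖X‖)) := by
    field_simp
    ring
  rw [h5]
  linarith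

theorem hopf_lip {X Y : E4} (hX : X ≠ 0) (hY : Y ≠ 0) :
    ‖hopf X - hopf Y‖ ≤ 4 * ‖X - Y‖ / ‖X‖ := by
  rcases le_total ‖Y‖ ‖X‖ with h | h
  · exact hopf_lip_aux hX hY h
  · have h1 := hopf_lip_aux hY hX h
    rw [norm_sub_rev, norm_sub_rev X Y]
    refine h1.trans ?_
    exact div_le_div_of_nonneg_left (by positivity) (norm_pos_iff.2 hX) h

theorem fderiv_hopf_le {X : E4} (hX : X ≠ 0) (V : E4) :
    ‖fderiv ℝ hopf X V‖ ≤ 4 * ‖V‖ / ‖X‖ := by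
  have hx : 0 < ‖X‖ := norm_pos_iff.2 hX
  have h : ‖fderiv ℝ hopf X‖ ≤ 4 / ‖X‖ := by
    refine norm_fderiv_le_of_lip' ℝ (by positivity) ?_
    filter_upwards [isOpen_ne.mem_nhds hX] with Y hY
    have h1 := hopf_lip hX hY
    rw [norm_sub_rev, norm_sub_rev Y X]
    refine h1.trans_eq ?_
    ring
  calc ‖fderiv ℝ hopf X V‖ ≤ ‖fderiv ℝ hopf X‖ * ‖V‖ := (fderiv ℝ hopf X).le_opNorm V
    _ ≤ 4 / ‖X‖ * ‖V‖ := mul_le_mul_of_nonneg_right h (norm_nonneg _)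
    _ = 4 * ‖V‖ / ‖X‖ := by ring

theorem hpl : HplStmt :=
  ⟨contDiffOn_hopf, fun _ _ hX hY => hopf_lip hX hY, fun _ hX V => fderiv_hopf_le hX V⟩

end Pool.Agent.RLim.H49
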