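import Pool.Agent.Helper74_RL.Stmts

/-!
# Stereographic coordinates (helper49, module SGL)
-/

noncomputable section

open scoped ContDiff Topology RealInnerProductSpace
set_option maxSynthPendingDepth 3
open Set Metric

namespace Pool.Agent.RLim.H49

open Pool.Agent.RLim Pool.Agent.RF

theorem sg_false (q : E4) : sg false q = WithLp.toLp 2 ![(1 + q 2 ^ 2 + q 3 ^ 2)⁻¹ * (2 * q 2),
    (1 + q 2 ^ 2 + q 3 ^ 2)⁻¹ * (-(2 * q 3)),
    (1 + q 2 ^ 2 + q 3 ^ 2)⁻¹ * (1 - (q 2 ^ 2 + q 3 ^ 2))] := by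
  ext i
  fin_cases i <;> simp [sg]

theorem sg_true (q : E4) : sg true q = WithLp.toLp 2 ![(1 + q 2 ^ 2 + q 3 ^ 2)⁻¹ * (2 * q 2),
    (1 + q 2 ^ 2 + q 3 ^ 2)⁻¹ * (2 * q 3),
    (1 + q 2 ^ 2 + q 3 ^ 2)⁻¹ * (q 2 ^ 2 + q 3 ^ 2 - 1)] := by
  ext i
  fin_cases i <;> simp [sg]

theorem contDiff_coord4 (i : Fin 4) : ContDiff ℝ ∞ (fun x : E4 => x i) :=
  ((EuclideanSpace.proj i : E4 →L[ℝ] ℝ)).contDiff

theorem contDiff_sg (i : Bool) : ContDiff ℝ ∞ (sg i) := by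
  have h2 := contDiff_coord4 2
  have h3 := contDiff_coord4 3
  have hd : ContDiff ℝ ∞ (fun q : E4 => (1 + q 2 ^ 2 + q 3 ^ 2)⁻¹) := by
    refine ContDiff.inv ((contDiff_const.add (h2.pow 2)).add (h3.pow 2)) ?_
    intro x; positivity
  cases i
  · have : sg false = fun q => _ := funext sg_false
    rw [this, contDiff_euclidean]
    intro i
    fin_cases i
    · exact hd.mul (contDiff_const.mul h2)
    · exact hd.mul (contDiff_const.mul h3).neg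
    · exact hd.mul (contDiff_const.sub ((h2.pow 2).add (h3.pow 2)))
  · have : sg true = fun q => _ := funext sg_true
    rw [this, contDiff_euclidean]
    intro i
    fin_cases i
    · exact hd.mul (contDiff_const.mul h2)
    · exact hd.mul (contDiff_const.mul h3)
    · exact hd.mul (((h2.pow 2).add (h3.pow 2)).sub contDiff_const)

/-- the chordal distance -/
theorem chord (i : Bool) (q q' : E4) : ‖sg i q - sg i q'‖ ^ 2 =
    4 * ((q 2 - q' 2) ^ 2 + (q 3 - q' 3) ^ 2) /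
      ((1 + q 2 ^ 2 + q 3 ^ 2) * (1 + q' 2 ^ 2 + q' 3 ^ 2)) := by
  have h1 : (1 + q 2 ^ 2 + q 3 ^ 2) ≠ 0 := by positivity
  have h2 : (1 + q' 2 ^ 2 + q' 3 ^ 2) ≠ 0 := by positivity
  rw [norm_sq3]
  cases i
  · simp only [PiLp.sub_apply, sg_false]
    simp
    field_simp
    ring
  · simp only [PiLp.sub_apply, sg_true]
    simp
    field_simp
    ring

theorem sg_lip (i : Bool) (q q' : E4) : ‖sg i q - sg i q'‖ ≤ 2 * ‖q - q'‖ := by
  have h : ‖sg i q - sg i q'‖ ^ 2 ≤ (2 * ‖q - q'‖) ^ 2 := by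
    rw [chord, div_le_iff₀ (by positivity), mul_pow, norm_sq4 (q - q')]
    simp only [PiLp.sub_apply]
    have h1 : (1:ℝ) ≤ (1 + q 2 ^ 2 + q 3 ^ 2) * (1 + q' 2 ^ 2 + q' 3 ^ 2) := by
      have a : (1:ℝ) ≤ 1 + q 2 ^ 2 + q 3 ^ 2 := by nlinarith [sq_nonneg (q 2), sq_nonneg (q 3)]
      have b : (1:ℝ) ≤ 1 + q' 2 ^ 2 + q' 3 ^ 2 := by
        nlinarith [sq_nonneg (q' 2), sq_nonneg (q' 3)]
      exact one_le_mul_of_one_le_of_one_le a b
    have h2 : 0 ≤ 4 * ((q 0 - q' 0) ^ 2 + (q 1 - q' 1) ^ 2 + (q 2 - q' 2) ^ 2 + (q 3 - q' 3) ^ 2) := by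
      positivity
    have h3 : 4 * ((q 2 - q' 2) ^ 2 + (q 3 - q' 3) ^ 2) ≤
        4 * ((q 0 - q' 0) ^ 2 + (q 1 - q' 1) ^ 2 + (q 2 - q' 2) ^ 2 + (q 3 - q' 3) ^ 2) := by
      nlinarith [sq_nonneg (q 0 - q' 0), sq_nonneg (q 1 - q' 1)]
    have h4 := mul_le_mul_of_nonneg_left h1 h2
    nlinarith
  exact (pow_le_pow_iff_left₀ (norm_nonneg _) (by positivity) two_ne_zero).1 h

theorem fderiv_sg_le (i : Bool) (q V : E4) : ‖fderiv ℝ (sg i) q V‖ ≤ 4 * ‖V‖ := by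
  have h : ‖fderiv ℝ (sg i) q‖ ≤ 4 := by
    refine norm_fderiv_le_of_lip' ℝ (by norm_num) ?_
    filter_upwards with q'
    refine (sg_lip i q' q).trans ?_
    nlinarith [norm_nonneg (q' - q)]
  exact ((fderiv ℝ (sg i) q).le_opNorm V).trans (mul_le_mul_of_nonneg_right h (norm_nonneg _))

/-- stereographic coordinates of `v` -/
theorem surj_false {v : E3} (hv : ‖v‖ = 1) (h : -1 < v 2) :
    ∃ q : E4, q 2 ^ 2 + q 3 ^ 2 = (1 - v 2) / (1 + v 2) ∧ sg false q = v := by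
  have h1 : v 0 ^ 2 + v 1 ^ 2 + v 2 ^ 2 = 1 := by rw [← norm_sq3, hv]; norm_num
  have h0 : (1 + v 2 : ℝ) ≠ 0 := by linarith
  have e : (v 0 / (1 + v 2)) ^ 2 + (-(v 1) / (1 + v 2)) ^ 2 = (1 - v 2) / (1 + v 2) := by
    field_simp
    linarith
  have e1 : 1 + (v 0 / (1 + v 2)) ^ 2 + (-(v 1) / (1 + v 2)) ^ 2 = 2 / (1 + v 2) := by
    rw [add_assoc, e]
    field_simp
    ring
  refine ⟨WithLp.toLp 2 ![0, 0, v 0 / (1 + v 2), -(v 1) / (1 + v 2)], ?_, ?_⟩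
  · exact e
  · rw [sg_false]
    have e2 : (1 + (WithLp.toLp 2 ![0, 0, v 0 / (1 + v 2), -(v 1) / (1 + v 2)] : E4) 2 ^ 2
        + (WithLp.toLp 2 ![0, 0, v 0 / (1 + v 2), -(v 1) / (1 + v 2)] : E4) 3 ^ 2)
        = 2 / (1 + v 2) := e1
    have e3 : ((WithLp.toLp 2 ![0, 0, v 0 / (1 + v 2), -(v 1) / (1 + v 2)] : E4) 2 ^ 2
        + (WithLp.toLp 2 ![0, 0, v 0 / (1 + v 2), -(v 1) / (1 + v 2)] : E4) 3 ^ 2)
        = (1 - v 2) / (1 + v 2) := e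
    rw [e2, e3]
    ext i
    fin_cases i
    · simp
      field_simp
    · simp
      field_simp
    · simp
      field_simp
      ring

theorem surj_true {v : E3} (hv : ‖v‖ = 1) (h : v 2 < 1) :
    ∃ q : E4, q 2 ^ 2 + q 3 ^ 2 = (1 + v 2) / (1 - v 2) ∧ sg true q = v := by
  have h1 : v 0 ^ 2 + v 1 ^ 2 + v 2 ^ 2 = 1 := by rw [← norm_sq3, hv]; norm_num
  have h0 : (1 - v 2 : ℝ) ≠ 0 := by linarith
  have e : (v 0 / (1 - v 2)) ^ 2 + (v 1 / (1 - v 2)) ^ 2 = (1 + v 2) / (1 - v 2) := by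
    field_simp
    linarith
  have e1 : 1 + (v 0 / (1 - v 2)) ^ 2 + (v 1 / (1 - v 2)) ^ 2 = 2 / (1 - v 2) := by
    rw [add_assoc, e]
    field_simp
    ring
  refine ⟨WithLp.toLp 2 ![0, 0, v 0 / (1 - v 2), v 1 / (1 - v 2)], ?_, ?_⟩
  · exact e
  · rw [sg_true]
    have e2 : (1 + (WithLp.toLp 2 ![0, 0, v 0 / (1 - v 2), v 1 / (1 - v 2)] : E4) 2 ^ 2
        + (WithLp.toLp 2 ![0, 0, v 0 / (1 - v 2), v 1 / (1 - v 2)] : E4) 3 ^ 2)
        = 2 / (1 - v 2) := e1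
    have e3 : ((WithLp.toLp 2 ![0, 0, v 0 / (1 - v 2), v 1 / (1 - v 2)] : E4) 2 ^ 2
        + (WithLp.toLp 2 ![0, 0, v 0 / (1 - v 2), v 1 / (1 - v 2)] : E4) 3 ^ 2)
        = (1 + v 2) / (1 - v 2) := e
    rw [e2, e3]
    ext i
    fin_cases i
    · simp
      field_simp
    · simp
      field_simp
    · simp
      field_simp
      ring

theorem sg_bi (i : Bool) (q q' : E4) (h : q 2 ^ 2 + q 3 ^ 2 ≤ 4) (h' : q' 2 ^ 2 + q' 3 ^ 2 ≤ 4) :
    (q 2 - q' 2) ^ 2 + (q 3 - q' 3) ^ 2 ≤ 25 / 4 * ‖sg i q - sg i q'‖ ^ 2 := by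
  rw [chord, mul_div_assoc', le_div_iff₀ (by positivity)]
  have h1 : (1 + q 2 ^ 2 + q 3 ^ 2) * (1 + q' 2 ^ 2 + q' 3 ^ 2) ≤ 25 := by
    have a : (1 + q 2 ^ 2 + q 3 ^ 2) ≤ 5 := by linarith
    have b : (1 + q' 2 ^ 2 + q' 3 ^ 2) ≤ 5 := by linarith
    calc (1 + q 2 ^ 2 + q 3 ^ 2) * (1 + q' 2 ^ 2 + q' 3 ^ 2) ≤ 5 * 5 :=
        mul_le_mul a b (by positivity) (by norm_num)
      _ = 25 := by norm_num
  have h2 : 0 ≤ (q 2 - q' 2) ^ 2 + (q 3 - q' 3) ^ 2 := by positivity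
  nlinarith [mul_le_mul_of_nonneg_left h1 h2]

theorem sg_cover (v : E3) (hv : ‖v‖ = 1) : ∃ i, ∃ q : E4, q 2 ^ 2 + q 3 ^ 2 ≤ 1 ∧ sg i q = v := by
  rcases le_total 0 (v 2) with h | h
  · obtain ⟨q, h1, h2⟩ := surj_false hv (by linarith)
    refine ⟨false, q, ?_, h2⟩
    rw [h1, div_le_one (by linarith)]
    linarith
  · obtain ⟨q, h1, h2⟩ := surj_true hv (by linarith)
    refine ⟨true, q, ?_, h2⟩
    rw [h1, div_le_one (by linarith)]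
    linarith

theorem coord_le (v : E3) : |v 2| ≤ ‖v‖ := by
  have := PiLp.norm_apply_le v 2
  simpa using this

theorem sg_far (i : Bool) (q : E4) (v : E3) (hq : q 2 ^ 2 + q 3 ^ 2 ≤ 1) (hv : ‖v‖ = 1)
    (hn : ¬ ∃ q' : E4, q' 2 ^ 2 + q' 3 ^ 2 ≤ 4 ∧ sg i q' = v) :
    1 / 2 ≤ ‖sg i q - v‖ ∧ ∃ q' : E4, q' 2 ^ 2 + q' 3 ^ 2 ≤ 1 ∧ sg (!i) q' = v := by
  have hc := coord_le (sg i q - v)
  rw [PiLp.sub_apply] at hc
  have hp : (0:ℝ) < 1 + q 2 ^ 2 + q 3 ^ 2 := by positivity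
  cases i
  · have h1 : v 2 < -(3 / 5) := by
      by_contra h
      push Not at h
      obtain ⟨q', h1, h2⟩ := surj_false hv (by linarith)
      refine hn ⟨q', ?_, h2⟩
      rw [h1, div_le_iff₀ (by linarith)]
      linarith
    obtain ⟨q', h2, h3⟩ := surj_true hv (by linarith)
    refine ⟨?_, q', ?_, h3⟩
    · refine le_trans ?_ hc
      have h4 : 0 ≤ (sg false q) 2 := by
        rw [sg_false]
        change (0:ℝ) ≤ (1 + q 2 ^ 2 + q 3 ^ 2)⁻¹ * (1 - (q 2 ^ 2 + q 3 ^ 2))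
        exact mul_nonneg (inv_nonneg.2 hp.le) (by linarith)
      refine le_trans ?_ (le_abs_self _)
      linarith
    · rw [h2, div_le_one (by linarith)]
      linarith
  · have h1 : 3 / 5 < v 2 := by
      by_contra h
      push Not at h
      obtain ⟨q', h1, h2⟩ := surj_true hv (by linarith)
      refine hn ⟨q', ?_, h2⟩
      rw [h1, div_le_iff₀ (by linarith)]
      linarith
    obtain ⟨q', h2, h3⟩ := surj_false hv (by linarith)
    refine ⟨?_, q', ?_, h3⟩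
    · refine le_trans ?_ hc
      have h4 : (sg true q) 2 ≤ 0 := by
        rw [sg_true]
        change (1 + q 2 ^ 2 + q 3 ^ 2)⁻¹ * (q 2 ^ 2 + q 3 ^ 2 - 1) ≤ (0:ℝ)
        exact mul_nonpos_of_nonneg_of_nonpos (inv_nonneg.2 hp.le) (by linarith)
      refine le_trans ?_ (neg_le_abs _)
      linarith
    · rw [h2, div_le_one (by linarith)]
      linarith

theorem sgl : SglStmt :=
  ⟨contDiff_sg, fderiv_sg_le, fun i q q' h h' => sg_bi i q q' h h', sg_cover, sg_far⟩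

end Pool.Agent.RLim.H49
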